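import Mathlib

namespace Pool.Agent.Results.MP_76d2cf_co.Triangle

/-- The lattice `((1/t) ℤ)^2`. -/
def Lat (t : ℕ) : Set (ℝ × ℝ) := {z | ∃ a b : ℤ, z = ((a : ℝ) / t, (b : ℝ) / t)}

/-- The convex hull of a finite set of rational points of the plane. -/
def Poly (V : Finset (ℚ × ℚ)) : Set (ℝ × ℝ) :=
  convexHull ℝ ((fun v : ℚ × ℚ => ((v.1 : ℝ), (v.2 : ℝ))) '' (V : Set (ℚ × ℚ)))

/-- The line `a x + b y = g`. -/
def Line (a b g : ℚ) : Set (ℝ × ℝ) := {z | (a : ℝ) * z.1 + (b : ℝ) * z.2 = (g : ℝ)}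

/-- `p` is the minimal period of the function `c` on the integers `t ≥ 1`. -/
def IsMinPeriod (c : ℕ → ℝ) (p : ℕ) : Prop :=
  0 < p ∧ (∀ t, 1 ≤ t → c (t + p) = c t) ∧
    ∀ q, 0 < q → (∀ t, 1 ≤ t → c (t + q) = c t) → p ≤ q

def V0 : Finset (ℚ × ℚ) := {(0, 0), (4, 0), (2, 1 / 2)}

theorem poly_eq : Poly V0 = {z : ℝ × ℝ | 0 ≤ z.2 ∧ 4 * z.2 ≤ z.1 ∧ z.1 + 4 * z.2 ≤ 4} := by
  apply Set.Subset.antisymm
  · apply convexHull_min
    · rintro _ ⟨v, hv, rfl⟩
      simp only [V0, Finset.coe_insert, Finset.coe_singleton, Set.mem_insert_iff,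
        Set.mem_singleton_iff] at hv
      rcases hv with rfl | rfl | rfl <;> norm_num
    · rintro x ⟨h1, h2, h3⟩ y ⟨h4, h5, h6⟩ a b ha hb hab
      simp only [Set.mem_ofPred_eq, Prod.fst_add, Prod.snd_add, Prod.smul_fst, Prod.smul_snd,
        smul_eq_mul]
      refine ⟨by positivity, by nlinarith, by nlinarith⟩
  · rintro ⟨x, y⟩ ⟨h1, h2, h3⟩
    simp only at h1 h2 h3
    have hc : Convex ℝ (Poly V0) := convex_convexHull ℝ _
    have hm : ∀ v ∈ V0, ((v.1 : ℝ), (v.2 : ℝ)) ∈ Poly V0 := fun v hv =>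
      subset_convexHull ℝ _ ⟨v, hv, rfl⟩
    have h := hc.sum_mem (t := Finset.univ) (w := ![1 - x / 4 - y, x / 4 - y, 2 * y])
      (z := ![((0 : ℝ), (0 : ℝ)), (4, 0), (2, 1 / 2)])
      (by intro i _; fin_cases i <;> simp <;> linarith)
      (by simp [Fin.sum_univ_three]; ring)
      (by
        intro i _
        fin_cases i
        · simpa using hm (0, 0) (by simp [V0])
        · simpa using hm (4, 0) (by simp [V0])
        · simpa using hm (2, 1 / 2) (by simp [V0]))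
    convert h using 1
    simp [Fin.sum_univ_three]
    constructor <;> ring

theorem int_eq : interior (Poly V0) = {z : ℝ × ℝ | 0 < z.2 ∧ 4 * z.2 < z.1 ∧ z.1 + 4 * z.2 < 4} := by
  rw [poly_eq]
  apply Set.Subset.antisymm
  · rintro ⟨x, y⟩ h
    obtain ⟨e, he, hb⟩ := Metric.mem_nhds_iff.mp (mem_interior_iff_mem_nhds.mp h)
    have hd : |e / 2| < e := by rw [abs_of_pos (by linarith)]; linarith
    have h1 := hb (show (x, y - e / 2) ∈ Metric.ball (x, y) e by
      simp [Prod.dist_eq, Real.dist_eq, he, abs_of_pos he])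
    have h2 := hb (show (x, y + e / 2) ∈ Metric.ball (x, y) e by
      simp [Prod.dist_eq, Real.dist_eq, he, abs_of_pos he])
    simp only [Set.mem_ofPred_eq] at h1 h2 ⊢
    refine ⟨by linarith, by linarith, by linarith⟩
  · apply interior_maximal
    · rintro z ⟨h1, h2, h3⟩
      exact ⟨h1.le, h2.le, h3.le⟩
    · exact (isOpen_lt continuous_const continuous_snd).inter
        ((isOpen_lt (continuous_const.mul continuous_snd) continuous_fst).inter
          (isOpen_lt (continuous_fst.add (continuous_const.mul continuous_snd)) continuous_const))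

def F (t : ℕ) : Finset (Σ _ : ℕ, ℕ) :=
  (Finset.range t).sigma (fun b => Finset.Ioo (4 * b + 4) (4 * t - 4 * b - 4))

theorem G_step (t : ℕ) : ∑ b ∈ Finset.range (t + 2), (4 * (t + 2) - 8 * b - 9) =
    ∑ b ∈ Finset.range t, (4 * t - 8 * b - 9) + (4 * t - 1) := by
  rw [Finset.sum_range_succ', Finset.sum_range_succ]
  have : ∀ b, 4 * (t + 2) - 8 * (b + 1) - 9 = 4 * t - 8 * b - 9 := fun b => by omega
  simp only [this]
  omega

theorem card_F (t : ℕ) (ht : 1 ≤ t) : 2 * (F t).card + 5 * t = 2 * (t * t) + 2 + t % 2 := by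
  have h : (F t).card = ∑ b ∈ Finset.range t, (4 * t - 8 * b - 9) := by
    rw [F, Finset.card_sigma]
    refine Finset.sum_congr rfl fun b _ => ?_
    rw [Nat.card_Ioo]
    omega
  rw [h]
  clear h
  induction t using Nat.strong_induction_on with
  | _ t ih =>
  rcases (show t = 1 ∨ t = 2 ∨ 3 ≤ t by omega) with rfl | rfl | h3
  · decide
  · decide
  obtain ⟨u, rfl⟩ : ∃ u, t = u + 3 := ⟨t - 3, by omega⟩
  have := ih (u + 1) (by omega) (by omega)
  rw [show u + 3 = (u + 1) + 2 by ring, G_step]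
  have e : (u + 1 + 2) % 2 = (u + 1) % 2 := by omega
  rw [e, show 4 * (u + 1) - 1 = 4 * u + 3 by omega]
  nlinarith

theorem card_mid (t : ℕ) (ht : 1 ≤ t) :
    2 * ((F t).filter (fun z => z.2 = 2 * t)).card + 2 = t + t % 2 := by
  have : (F t).filter (fun z => z.2 = 2 * t) =
      (Finset.range ((t + 1) / 2 - 1)).sigma (fun _ => ({2 * t} : Finset ℕ)) := by
    ext ⟨b, a⟩
    simp [F]
    omega
  rw [this, Finset.card_sigma]
  simp
  omega

noncomputable def emb (t : ℕ) (z : Σ _ : ℕ, ℕ) : ℝ × ℝ := ((z.2 : ℝ) / t, ((z.1 : ℝ) + 1) / t)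

theorem emb_inj (t : ℕ) (ht : 1 ≤ t) : Function.Injective (emb t) := by
  rintro ⟨b, a⟩ ⟨b', a'⟩ h
  have h0 : (t : ℝ) ≠ 0 := by positivity
  simp only [emb, Prod.mk.injEq, div_left_inj' h0, add_left_inj, Nat.cast_inj] at h
  obtain ⟨rfl, rfl⟩ := h
  rfl

theorem set_eq (t : ℕ) (ht : 1 ≤ t) : interior (Poly V0) ∩ Lat t = emb t '' (F t) := by
  have h0 : (0 : ℝ) < t := by exact_mod_cast ht
  rw [int_eq]
  ext z
  constructor
  · rintro ⟨⟨h1, h2, h3⟩, a, b, rfl⟩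
    simp only at h1 h2 h3
    rw [← mul_div_assoc, ← add_div, div_lt_iff₀ h0] at h3
    rw [← mul_div_assoc, div_lt_div_iff_of_pos_right h0] at h2
    rw [div_pos_iff_of_pos_right h0] at h1
    have k1 : 0 < b := by exact_mod_cast h1
    have k2 : 4 * b < a := by exact_mod_cast h2
    have k3 : a + 4 * b < 4 * t := by exact_mod_cast h3
    obtain ⟨b', rfl⟩ : ∃ b' : ℕ, b = b' + 1 := ⟨(b - 1).toNat, by omega⟩
    obtain ⟨a', rfl⟩ : ∃ a' : ℕ, a = a' := ⟨a.toNat, by omega⟩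
    refine ⟨⟨b', a'⟩, ?_, by simp [emb]⟩
    simp [F]
    omega
  · rintro ⟨⟨b, a⟩, hz, rfl⟩
    simp [F] at hz
    refine ⟨⟨by simp only [emb]; positivity, ?_, ?_⟩, a, b + 1, by simp [emb]⟩
    · simp only [emb]
      rw [← mul_div_assoc, div_lt_div_iff_of_pos_right h0]
      exact_mod_cast (by omega : 4 * (b + 1) < a)
    · simp only [emb]
      rw [← mul_div_assoc, ← add_div, div_lt_iff₀ h0]
      exact_mod_cast (by omega : a + 4 * (b + 1) < 4 * t)

theorem set_eq' (t : ℕ) (ht : 1 ≤ t) : (interior (Poly V0) \ Line 1 0 2) ∩ Lat t =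
    emb t '' ((F t).filter (fun z => ¬ z.2 = 2 * t)) := by
  have h0 : (t : ℝ) ≠ 0 := by positivity
  have key : ∀ z, emb t z ∈ Line 1 0 2 ↔ z.2 = 2 * t := by
    intro z
    simp only [Line, emb, Set.mem_ofPred_eq]
    push_cast
    rw [zero_mul, add_zero, one_mul, div_eq_iff h0]
    exact_mod_cast Iff.rfl
  rw [← Set.inter_sdiff_right_comm, set_eq t ht]
  ext z
  constructor
  · rintro ⟨⟨w, hw, rfl⟩, h⟩
    exact ⟨w, by simpa using ⟨hw, fun e => h ((key w).mpr e)⟩, rfl⟩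
  · rintro ⟨w, hw, rfl⟩
    simp only [Finset.coe_filter, Set.mem_ofPred_eq] at hw
    exact ⟨⟨w, hw.1, rfl⟩, fun e => hw.2 ((key w).mp e)⟩

theorem per1 (x : ℝ) : IsMinPeriod (fun _ => x) 1 := ⟨one_pos, fun _ _ => rfl, fun _ h _ => h⟩

theorem per2 (x y : ℝ) (hy : y ≠ 0) : IsMinPeriod (fun t => x + y * ((t % 2 : ℕ) : ℝ)) 2 := by
  refine ⟨two_pos, fun t _ => by simp, fun q hq h => ?_⟩
  by_contra hc
  obtain rfl : q = 1 := by omega
  have := h 1 le_rfl
  norm_num at this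
  exact hy this

theorem result : ∃ (V : Finset (ℚ × ℚ)) (a b g : ℚ) (c cw : ℕ → ℕ → ℝ) (p pw : ℕ → ℕ),
    (a, b) ≠ (0, 0) ∧ (Line a b g ∩ interior (Poly V)).Nonempty ∧ ¬ Poly V ⊆ Line a b g ∧
    (∀ t, 1 ≤ t → (((interior (Poly V) \ Line a b g) ∩ Lat t).ncard : ℝ) =
      ∑ k ∈ Finset.range 3, c k t * (t : ℝ) ^ k) ∧
    (∀ t, 1 ≤ t → ((interior (Poly V) ∩ Lat t).ncard : ℝ) =
      ∑ k ∈ Finset.range 3, cw k t * (t : ℝ) ^ k) ∧
    (∀ k, k ≤ 2 → IsMinPeriod (c k) (p k) ∧ IsMinPeriod (cw k) (pw k)) ∧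
    p 1 = pw 1 ∧ ¬ (p 1 * pw 0 ∣ p 0 * pw 1) := by
  refine ⟨V0, 1, 0, 2,
    fun k => if k = 0 then (fun _ => 2) else if k = 1 then (fun _ => -3) else fun _ => 1,
    fun k => if k = 0 then (fun t => 1 + (1 / 2) * ((t % 2 : ℕ) : ℝ))
      else if k = 1 then (fun _ => -5 / 2) else fun _ => 1,
    fun _ => 1, fun k => if k = 0 then 2 else 1,
    by simp, ⟨(2, 1 / 4), ?_, ?_⟩, ?_, ?_, ?_, ?_, rfl, by decide⟩
  · norm_num [Line]
  · rw [int_eq]; norm_num
  · intro h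
    have := h (show ((0 : ℝ), (0 : ℝ)) ∈ Poly V0 by rw [poly_eq]; norm_num)
    norm_num [Line] at this
  · intro t ht
    rw [set_eq' t ht, Set.ncard_image_of_injective _ (emb_inj t ht), Set.ncard_coe_finset]
    have h1 := congrArg (Nat.cast : ℕ → ℝ) (card_F t ht)
    have h2 := congrArg (Nat.cast : ℕ → ℝ) (card_mid t ht)
    have h3 := congrArg (Nat.cast : ℕ → ℝ)
      (Finset.card_filter_add_card_filter_not (s := F t) (fun z => z.2 = 2 * t))
    simp only [Nat.cast_add, Nat.cast_mul, Nat.cast_ofNat] at h1 h2 h3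
    simp only [Finset.sum_range_succ, Finset.range_zero, Finset.sum_empty]
    norm_num
    nlinarith
  · intro t ht
    rw [set_eq t ht, Set.ncard_image_of_injective _ (emb_inj t ht), Set.ncard_coe_finset]
    have h1 := congrArg (Nat.cast : ℕ → ℝ) (card_F t ht)
    simp only [Nat.cast_add, Nat.cast_mul, Nat.cast_ofNat] at h1
    simp only [Finset.sum_range_succ, Finset.range_zero, Finset.sum_empty]
    norm_num
    nlinarith
  · intro k hk
    rcases (show k = 0 ∨ k = 1 ∨ k = 2 by omega) with rfl | rfl | rfl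
    · exact ⟨per1 _, per2 _ _ (by norm_num)⟩
    · exact ⟨per1 _, per1 _⟩
    · exact ⟨per1 _, per1 _⟩

end Pool.Agent.Results.MP_76d2cf_co.Triangle
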